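import Pool.Agent.K7.H69.LC.Stm

set_option autoImplicit false

namespace Pool.Agent.K7.H34.LC

open Pool.Agent.K7.H69.LC Finset

theorem code_length (m : ℕ) (w : List ℕ) : ∀ A : Finset ℕ, (code m A w).length = w.length := by
  induction w with
  | nil => intro A; simp [code]
  | cons p w ih =>
    intro A
    unfold code
    split_ifs <;> simp [ih]

theorem letters {n : ℕ} {w : List ℕ} (h : IsStirling n w) : ∀ p ∈ w, p ≤ n := by
  intro p hp
  have h1 := h.1 p
  have h2 := List.count_pos_iff.2 hp
  by_contra hc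
  rw [if_neg (by omega)] at h1
  omega

theorem stirling_zero (w : List ℕ) : IsStirling 0 w ↔ w = [] := by
  constructor
  · intro h
    rw [List.eq_nil_iff_forall_not_mem]
    intro p hp
    have h1 := h.1 p
    have h2 := List.count_pos_iff.2 hp
    rw [if_neg (by omega)] at h1
    omega
  · rintro rfl
    refine ⟨fun i => ?_, fun u v t i h => ?_⟩
    · rw [if_neg (by omega)]; simp
    · simp at h

/-- The Stirling permutations of order `k` as a finset. -/
noncomputable def S : ℕ → Finset (List ℕ)
  | 0 => {[]}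
  | k + 1 => (S k ×ˢ range (2 * k + 1)).image (fun p => put (k + 1) p.2 p.1)

theorem mem_S (hs : StStruct) : ∀ (k : ℕ) (w : List ℕ), w ∈ S k ↔ IsStirling k w := by
  intro k
  induction k with
  | zero => intro w; rw [stirling_zero]; simp [S]
  | succ k ih =>
    intro w
    rw [hs k w]
    simp only [S, mem_image, mem_product, mem_range, Prod.exists]
    constructor
    · rintro ⟨w', g, ⟨h1, h2⟩, h3⟩
      exact ⟨w', g, (ih w').1 h1, by omega, h3.symm⟩
    · rintro ⟨w', g, h1, h2, h3⟩
      exact ⟨w', g, ⟨(ih w').2 h1, by omega⟩, h3.symm⟩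

theorem lucky_le (hs : StStruct) (hl : StLen) (hk : StLucky) :
    ∀ (k : ℕ) (w : List ℕ), IsStirling k w → lucky ∅ w ≤ k := by
  intro k
  induction k with
  | zero =>
    intro w h
    rw [stirling_zero] at h
    subst h
    simp [lucky]
  | succ k ih =>
    intro w h
    obtain ⟨w', g, h1, h2, rfl⟩ := (hs k w).1 h
    have h3 := ih w' h1
    rw [hk k w' g (letters h1) (by rw [hl k w' h1]; exact h2)]
    split_ifs <;> omega

/-- The mixed count. -/
noncomputable def T (k m u : ℕ) : ℕ :=
  ∑ w ∈ S k, if k - lucky ∅ w ≤ u then W m (u - (k - lucky ∅ w)) (code k ∅ w) else 0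

theorem step (m u a k : ℕ) (c : List Bool) (hc : c.length = 2 * k) :
    (if a ≤ u then W (m + 1) (u - a) c else 0) =
    ∑ g ∈ range (2 * k + 1), if (c.take g).all id then (if a ≤ u then W m (u - a) (ins c g) else 0)
      else (if a + 1 ≤ u then W m (u - (a + 1)) (ins c g) else 0) := by
  rcases lt_trichotomy a u with h | h | h
  · obtain ⟨v, rfl⟩ : ∃ v, u = a + (v + 1) := ⟨u - a - 1, by omega⟩
    rw [if_pos (by omega), show a + (v + 1) - a = v + 1 by omega,
      show a + (v + 1) - (a + 1) = v by omega]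
    rw [W, hc]
    refine sum_congr rfl fun g _ => ?_
    rw [if_pos (by omega : a ≤ a + (v + 1)), if_pos (by omega : a + 1 ≤ a + (v + 1))]
  · subst h
    rw [if_pos le_rfl, Nat.sub_self, W, hc]
    refine sum_congr rfl fun g _ => ?_
    rw [if_pos le_rfl, if_neg (by omega : ¬ a + 1 ≤ a)]
  · rw [if_neg (by omega)]
    symm
    refine sum_eq_zero fun g _ => ?_
    rw [if_neg (by omega : ¬ a ≤ u), if_neg (by omega : ¬ a + 1 ≤ u)]
    simp

theorem T_succ (hs : StStruct) (hl : StLen) (hi : StInj) (hc : StCode) (hk : StLucky)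
    (k m u : ℕ) : T k (m + 1) u = T (k + 1) m u := by
  unfold T
  rw [S, sum_image, sum_product]
  · refine sum_congr rfl fun w hw => ?_
    rw [mem_S hs] at hw
    have hlen : (code k ∅ w).length = 2 * k := by rw [code_length, hl k w hw]
    rw [step m u (k - lucky ∅ w) k _ hlen]
    refine sum_congr rfl fun g hg => ?_
    rw [mem_range] at hg
    have hg' : g ≤ w.length := by rw [hl k w hw]; omega
    have h1 := lucky_le hs hl hk k w hw
    dsimp only
    rw [hc k w g (letters hw) hg', hk k w g (letters hw) hg']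
    by_cases hall : ((code k ∅ w).take g).all id
    · rw [if_pos hall, if_pos hall, show k + 1 - (lucky ∅ w + 1) = k - lucky ∅ w by omega]
    · rw [if_neg hall, if_neg hall, show k + 1 - (lucky ∅ w + 0) = k - lucky ∅ w + 1 by omega]
  · rintro ⟨w, g⟩ h ⟨w', g'⟩ h' he
    simp only [coe_product, Set.mem_prod, mem_coe, mem_range] at h h'
    obtain ⟨e1, e2⟩ := hi k w w' g g' ((mem_S hs k w).1 h.1) ((mem_S hs k w').1 h'.1)
      (by have := h.2; omega) (by have := h'.2; omega) he
    rw [e1, e2]

theorem T_shift (hs : StStruct) (hl : StLen) (hi : StInj) (hc : StCode) (hk : StLucky)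
    (u : ℕ) : ∀ (m k : ℕ), T k m u = T (k + m) 0 u := by
  intro m
  induction m with
  | zero => intro k; rfl
  | succ m ih =>
    intro k
    rw [T_succ hs hl hi hc hk, ih (k + 1)]
    congr 1
    omega

theorem enum : StStruct → StLen → StInj → StCode → StLucky → StEnum := by
  intro hs hl hi hc hk n u
  have h0 : T 0 n u = W n u [] := by
    unfold T
    simp [S, code]
  have h1 : T n 0 u = {w : List ℕ | IsStirling n w ∧ lucky ∅ w + u = n}.ncard := by
    have h2 : {w : List ℕ | IsStirling n w ∧ lucky ∅ w + u = n} =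
        (((S n).filter fun w => lucky ∅ w + u = n : Finset (List ℕ)) : Set (List ℕ)) := by
      ext w
      simp only [Set.mem_ofPred_eq, coe_filter, mem_S hs]
    rw [h2, Set.ncard_coe_finset, card_filter]
    unfold T
    refine sum_congr rfl fun w hw => ?_
    rw [mem_S hs] at hw
    have h3 := lucky_le hs hl hk n w hw
    rcases lt_trichotomy (n - lucky ∅ w) u with h | h | h
    · rw [if_pos h.le, if_neg (by omega)]
      obtain ⟨v, hv⟩ : ∃ v, u - (n - lucky ∅ w) = v + 1 := ⟨u - (n - lucky ∅ w) - 1, by omega⟩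
      rw [hv, W]
    · rw [if_pos h.le, if_pos (by omega), h, Nat.sub_self, W]
    · rw [if_neg (by omega), if_neg (by omega)]
  rw [← h1, ← h0, T_shift hs hl hi hc hk u n 0]
  congr 1
  omega

end Pool.Agent.K7.H34.LC
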